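import Pool.Agent.Helper73.HM.St

/-! # MP_dbe07f_lc : HM module RA, the least unbounded function of a fine ultrafilter -/

namespace Pool.Agent.Helper32.HM

open Ordinal Cardinal ZFSet Order Filter Pool.Agent.Helper73.HODC Pool.Agent.Helper73.HE
  Pool.Agent.Helper73.HM

/-- the small subsets -/
abbrev Sm (κ c : Cardinal.{0}) : Type := {x : Set c.ord.ToType // Cardinal.mk x < κ}

/-- the fine filter -/
def fineF (κ c : Cardinal.{0}) (hκ : ℵ₀ ≤ κ) : Filter (Sm κ c) where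
  sets := {A | ∃ s : Set c.ord.ToType, Cardinal.mk s < κ ∧ ∀ x : Sm κ c, s ⊆ x.1 → x ∈ A}
  univ_sets := by
    refine ⟨∅, ?_, fun _ _ => trivial⟩
    rw [Cardinal.mk_emptyCollection]
    exact lt_of_lt_of_le Cardinal.aleph0_pos hκ
  sets_of_superset := by
    rintro A B ⟨s, hs, h⟩ hAB
    exact ⟨s, hs, fun x hx => hAB (h x hx)⟩
  inter_sets := by
    rintro A B ⟨s, hs, h⟩ ⟨t, ht, h'⟩
    refine ⟨s ∪ t, (Cardinal.mk_union_le s t).trans_lt (Cardinal.add_lt_of_lt hκ hs ht),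
      fun x hx => ⟨h x (Set.subset_union_left.trans hx), h' x (Set.subset_union_right.trans hx)⟩⟩

theorem mem_fineF {κ c : Cardinal.{0}} {hκ : ℵ₀ ≤ κ} {A : Set (Sm κ c)} :
    A ∈ fineF κ c hκ ↔ ∃ s : Set c.ord.ToType, Cardinal.mk s < κ ∧
      ∀ x : Sm κ c, s ⊆ x.1 → x ∈ A := Iff.rfl

theorem fineF_neBot (κ c : Cardinal.{0}) (hκ : ℵ₀ ≤ κ) : (fineF κ c hκ).NeBot := by
  refine ⟨fun h => ?_⟩
  have h1 : (∅ : Set (Sm κ c)) ∈ fineF κ c hκ := by rw [h]; trivial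
  obtain ⟨s, hs, h2⟩ := mem_fineF.1 h1
  exact h2 ⟨s, hs⟩ (le_refl _)

theorem fineF_card (κ c : Cardinal.{0}) (hκ : ℵ₀ ≤ κ) (hr : κ.IsRegular) :
    CardinalInterFilter (fineF κ c hκ) κ := by
  refine ⟨fun S hS h => ?_⟩
  choose s hs1 hs2 using fun A : S => mem_fineF.1 (h A.1 A.2)
  refine mem_fineF.2 ⟨⋃ A : S, s A, ?_, ?_⟩
  · rw [Cardinal.card_iUnion_lt_iff_forall_of_isRegular hr hS]
    exact hs1
  · intro x hx A hA
    exact hs2 ⟨A, hA⟩ x ((Set.subset_iUnion s ⟨A, hA⟩).trans hx)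

/-- RA -/
theorem ra : StRA := by
  intro κ c hSC hc hκc
  have hκ : ℵ₀ ≤ κ := hSC.unc.le
  have := fineF_card κ c hκ hSC.reg
  obtain ⟨U, hU, hUF⟩ := hSC.ext (Sm κ c) (fineF κ c hκ) (fineF_neBot κ c hκ)
    (fineF_card κ c hκ hSC.reg)
  have : CountableInterFilter (U : Filter (Sm κ c)) :=
    CardinalInterFilter.toCountableInterFilter (c := κ) (U : Filter (Sm κ c)) hSC.unc
  -- values of elements
  let e : ∀ β : Ordinal.{0}, β < c.ord → c.ord.ToType := fun β hβ => ToType.mk ⟨β, hβ⟩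
  let v : c.ord.ToType → Ordinal.{0} := fun t => (ToType.mk.symm t).1
  have hve : ∀ β (hβ : β < c.ord), v (e β hβ) = β := fun β hβ => by
    show ((ToType.mk.symm (ToType.mk ⟨β, hβ⟩)) : Set.Iio c.ord).1 = β
    rw [OrderIso.symm_apply_apply]
  have hvlt : ∀ t, v t < c.ord := fun t => (ToType.mk.symm t).2
  have hfine : ∀ β (hβ : β < c.ord), ∀ᶠ x in (U : Filter (Sm κ c)), e β hβ ∈ x.1 := by
    intro β hβ
    refine hUF (mem_fineF.2 ⟨{e β hβ}, ?_, fun x hx => hx rfl⟩)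
    rw [Cardinal.mk_singleton]
    exact lt_of_lt_of_le Cardinal.one_lt_aleph0 hκ
  -- the sup function
  let g0 : Sm κ c → Ordinal.{0} := fun x => ⨆ t : x.1, v t.1 + 1
  have hg0lt : ∀ x, g0 x < c.ord := fun x => by
    refine Ordinal.iSup_add_one_lt_of_lt_cof ?_ fun t => hvlt t.1
    rw [hc.cof_ord]
    exact x.2.trans_le hκc
  have hg0 : ∀ β < c.ord, ∀ᶠ x in (U : Filter (Sm κ c)), β < g0 x := by
    intro β hβ
    filter_upwards [hfine β hβ] with x hx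
    have h1 := Ordinal.lt_iSup_add_one (fun t : x.1 => v t.1) ⟨e β hβ, hx⟩
    have h2 : v (e β hβ) < ⨆ t : x.1, v t.1 + 1 := h1
    rwa [hve] at h2
  -- the order of functions modulo `U`
  let R : (Sm κ c → Ordinal.{0}) → (Sm κ c → Ordinal.{0}) → Prop :=
    fun f g => ∀ᶠ x in (U : Filter (Sm κ c)), f x < g x
  have hR : WellFounded R := by
    rw [wellFounded_iff_isEmpty_descending_chain]
    refine ⟨fun ⟨f, hf⟩ => ?_⟩
    have h1 : ∀ᶠ x in (U : Filter (Sm κ c)), ∀ n, f (n + 1) x < f n x :=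
      eventually_countable_forall.2 hf
    obtain ⟨x, hx⟩ := h1.exists
    exact not_strictAnti_of_wellFoundedLT (fun n => f n x) (strictAnti_nat_of_succ_lt hx)
  let G : Set (Sm κ c → Ordinal.{0}) := {g | ∀ β < c.ord, ∀ᶠ x in (U : Filter (Sm κ c)), β < g x}
  have hG : G.Nonempty := ⟨g0, hg0⟩
  let g := hR.min G hG
  have hgG : g ∈ G := hR.min_mem G hG
  have hgmin : ∀ f : Sm κ c → Ordinal.{0}, R f g → ∃ β < c.ord,
      ∀ᶠ x in (U : Filter (Sm κ c)), f x ≤ β := by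
    intro f hf
    have h1 : f ∉ G := fun h => hR.not_lt_min G h hf
    by_contra hno
    apply h1
    intro β hβ
    by_contra h2
    exact hno ⟨β, hβ, (Ultrafilter.eventually_not.2 h2).mono fun x hx => not_lt.1 hx⟩
  have hgle : ∀ᶠ x in (U : Filter (Sm κ c)), g x ≤ g0 x := by
    by_contra h1
    have h2 : R g0 g := (Ultrafilter.eventually_not.2 h1).mono fun x hx => not_le.1 hx
    obtain ⟨β, hβ, h3⟩ := hgmin g0 h2
    obtain ⟨x, hx1, hx2⟩ := (h3.and (hg0 β hβ)).exists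
    exact absurd hx1 (not_le.2 hx2)
  refine ⟨Sm κ c, U, g, hU, hgG, hgmin, ?_⟩
  -- the cofinality
  let f : Sm κ c → Ordinal.{0} := fun x => ⨆ t : {t : x.1 // v t.1 < g x}, v t.1.1 + 1
  have hfle : ∀ x, f x ≤ g x := fun x => by
    refine Ordinal.iSup_le fun t => ?_
    exact Order.add_one_le_iff.2 t.2
  have hfg : ∀ᶠ x in (U : Filter (Sm κ c)), f x = g x := by
    by_contra h1
    have h2 : R f g := (Ultrafilter.eventually_not.2 h1).mono fun x hx =>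
      lt_of_le_of_ne (hfle x) hx
    obtain ⟨β, hβ, h3⟩ := hgmin f h2
    obtain ⟨x, hx1, hx2, hx3⟩ := (h3.and ((hfine β hβ).and (hgG β hβ))).exists
    have h4 : v (e β hβ) < g x := by rw [hve]; exact hx3
    have h5 := Ordinal.lt_iSup_add_one (fun t : {t : x.1 // v t.1 < g x} => v t.1.1)
      ⟨⟨e β hβ, hx2⟩, h4⟩
    have h6 : v (e β hβ) < f x := h5
    rw [hve] at h6
    exact absurd hx1 (not_le.2 h6)
  filter_upwards [hgle, hfg] with x hx1 hx2
  refine ⟨hx1.trans_lt (hg0lt x), ?_⟩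
  rw [← hx2]
  calc (f x).cof ≤ Cardinal.mk {t : x.1 // v t.1 < g x} := Ordinal.cof_iSup_add_one_le _
    _ ≤ Cardinal.mk x.1 := Cardinal.mk_subtype_le _
    _ < κ := x.2

end Pool.Agent.Helper32.HM
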